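import Pool.Agent.Helper67.LPath.Sub
import Pool.Agent.Helper79.LPath.L1b

/-! Piece L1c (MP_fc92c5): every path of the subdivided graph with tails has at most
`L + 2 T + 1` vertices. -/

set_option autoImplicit false

namespace Pool.Agent.Helper51.LPath

open Pool.Agent.Helper67.LPath

/-- tail vertices at `t` -/
def TV (t : ℕ) (x : Pt) : Prop := x.1 = t ∧ x.2.1 = t ∧ 1 ≤ x.2.2

theorem pt_not_tail {W : ℕ → ℕ → ℕ} {a b s t r : ℕ} (hab : a < b) (hr : 1 ≤ r) :
    pt W a b s ≠ (t, t, r) := by
  unfold pt
  split_ifs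
  all_goals
    intro h
    simp only [Prod.mk.injEq] at h
    omega

theorem adj_tail {W : ℕ → ℕ → ℕ} {tips : List ℕ} {T : ℕ} {t s : ℕ} {y : Pt} (hs : 1 ≤ s)
    (h : (G0 W tips T).Adj (t, t, s) y) :
    t ∈ tips ∧ s ≤ T ∧ (y = (t, t, s + 1) ∨ y = (t, t, s - 1)) := by
  rcases h with (⟨a, b, r, hab, hr, h1, h2⟩ | ⟨u, hu, r, hr, h1, h2⟩) |
    (⟨a, b, r, hab, hr, h1, h2⟩ | ⟨u, hu, r, hr, h1, h2⟩)
  · exact absurd h1.symm (pt_not_tail hab hs)
  · simp only [Prod.mk.injEq] at h1
    obtain ⟨h3, -, h4⟩ := h1
    subst h3 h4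
    exact ⟨hu, by omega, Or.inl h2⟩
  · exact absurd h2.symm (pt_not_tail hab hs)
  · simp only [Prod.mk.injEq] at h2
    obtain ⟨h3, -, h4⟩ := h2
    subst h3 h4
    refine ⟨hu, by omega, Or.inr ?_⟩
    rw [h1, Nat.add_sub_cancel]

theorem deeper {W : ℕ → ℕ → ℕ} {tips : List ℕ} {T : ℕ} (t : ℕ) :
    ∀ (l : List Pt) (s : ℕ), List.IsChain (G0 W tips T).Adj ((t, t, s) :: (t, t, s + 1) :: l) →
      ((t, t, s) :: (t, t, s + 1) :: l : List Pt).Nodup → ∀ x ∈ l, TV t x := by
  intro l
  induction l with
  | nil => intro s _ _ x hx; simp at hx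
  | cons y l ih =>
    intro s hc hn
    rw [List.isChain_cons_cons, List.isChain_cons_cons] at hc
    obtain ⟨h1, h2, h3⟩ := hc
    have hy : y = (t, t, s + 1 + 1) := by
      rcases (adj_tail (by omega) h2).2.2 with h | h
      · exact h
      · exfalso
        rw [Nat.add_sub_cancel] at h
        rw [List.nodup_cons] at hn
        exact hn.1 (by rw [h]; simp)
    have hn2 : ((t, t, s + 1) :: (t, t, s + 1 + 1) :: l : List Pt).Nodup := by
      rw [← hy]
      exact (List.nodup_cons.1 hn).2
    have hc2 : List.IsChain (G0 W tips T).Adj ((t, t, s + 1) :: (t, t, s + 1 + 1) :: l) := by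
      rw [← hy, List.isChain_cons_cons]
      exact ⟨h2, h3⟩
    intro x hx
    rcases List.mem_cons.1 hx with rfl | hx
    · rw [hy]
      exact ⟨rfl, rfl, by simp⟩
    · exact ih (s + 1) hc2 hn2 x hx

theorem one_side {W : ℕ → ℕ → ℕ} {tips : List ℕ} {T : ℕ} {t : ℕ} {P1 P2 : List Pt} {x : Pt}
    (hx : TV t x) (hc : List.IsChain (G0 W tips T).Adj (P1 ++ x :: P2))
    (hn : (P1 ++ x :: P2).Nodup) : (∀ y ∈ P1, TV t y) ∨ (∀ y ∈ P2, TV t y) := by
  obtain ⟨x1, x2, s⟩ := x
  obtain ⟨h1, h2, hs⟩ := hx
  simp only at h1 h2 hs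
  subst h1
  subst h2
  rcases P2 with _ | ⟨y, P2⟩
  · right; intro y hy; simp at hy
  · have hc2 : List.IsChain (G0 W tips T).Adj ((x2, x2, s) :: y :: P2) :=
      hc.right_of_append
    have hn2 : ((x2, x2, s) :: y :: P2 : List Pt).Nodup := (List.nodup_append.1 hn).2.1
    have hadj := (List.isChain_cons_cons.1 hc2).1
    rcases (adj_tail hs hadj).2.2 with h | h
    · right
      subst h
      have := deeper x2 P2 s hc2 hn2
      intro z hz
      rcases List.mem_cons.1 hz with rfl | hz
      · exact ⟨rfl, rfl, by simp⟩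
      · exact this z hz
    · left
      rcases List.eq_nil_or_concat' P1 with rfl | ⟨P1, z, rfl⟩
      · intro z hz; simp at hz
      · have hrev : (P1 ++ [z] ++ (x2, x2, s) :: y :: P2).reverse =
            P2.reverse ++ [y] ++ ((x2, x2, s) :: z :: P1.reverse) := by simp
        have hc3 : List.IsChain (G0 W tips T).Adj
            (P1 ++ [z] ++ (x2, x2, s) :: y :: P2).reverse := by
          rw [List.isChain_reverse]
          exact hc.imp fun a b hab => SimpleGraph.Adj.symm hab
        have hn3 : (P1 ++ [z] ++ (x2, x2, s) :: y :: P2).reverse.Nodup :=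
          List.nodup_reverse.2 hn
        rw [hrev] at hc3 hn3
        have hc4 := hc3.right_of_append
        have hn4 := (List.nodup_append.1 hn3).2.1
        have hadj2 := (List.isChain_cons_cons.1 hc4).1
        have hz : z = (x2, x2, s + 1) := by
          rcases (adj_tail hs hadj2).2.2 with h' | h'
          · exact h'
          · exfalso
            have hzy : z = y := by rw [h', h]
            subst hzy
            have := (List.nodup_append.1 hn).2.2 z (by simp) z (by simp)
            exact this rfl
        subst hz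
        have := deeper x2 P1.reverse s hc4 hn4
        intro w hw
        rcases List.mem_append.1 hw with hw | hw
        · exact this w (List.mem_reverse.2 hw)
        · simp only [List.mem_singleton] at hw
          subst hw
          exact ⟨rfl, rfl, by simp⟩

/-- in a path with at least two vertices every vertex has a neighbour -/
theorem exists_adj {V : Type} {G : SimpleGraph V} {l : List V} (hc : l.IsChain G.Adj)
    (hl : 2 ≤ l.length) {x : V} (hx : x ∈ l) : ∃ y, G.Adj x y := by
  obtain ⟨A, B, rfl⟩ := List.append_of_mem hx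
  rcases B with _ | ⟨y, B⟩
  · rcases List.eq_nil_or_concat' A with rfl | ⟨A, z, rfl⟩
    · simp at hl
    · have : List.IsChain G.Adj (A ++ ([z, x])) := by
        have e : A ++ [z] ++ [x] = A ++ [z, x] := by simp
        rwa [← e]
      have := List.isChain_cons_cons.1 this.right_of_append
      exact ⟨z, this.1.symm⟩
  · exact ⟨y, (List.isChain_cons_cons.1 hc.right_of_append).1⟩

/-- the number of vertices in one tail -/
theorem tail_length {T t : ℕ} {l : List Pt} (hn : l.Nodup)
    (h : ∀ x ∈ l, TV t x ∧ x.2.2 ≤ T) : l.length ≤ T := by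
  classical
  rw [← List.toFinset_card_of_nodup hn]
  calc l.toFinset.card ≤ ((Finset.Icc 1 T).image fun s => ((t, t, s) : Pt)).card := by
        apply Finset.card_le_card
        intro x hx
        obtain ⟨⟨h1, h2, h3⟩, h4⟩ := h x (List.mem_toFinset.1 hx)
        refine Finset.mem_image.2 ⟨x.2.2, Finset.mem_Icc.2 ⟨h3, h4⟩, ?_⟩
        obtain ⟨a, b, s⟩ := x
        simp only at h1 h2
        rw [h1, h2]
    _ ≤ (Finset.Icc 1 T).card := Finset.card_image_le
    _ = T := by simp

theorem mem_bounds {n : ℕ} {W : ℕ → ℕ → ℕ} (hW : Core n W) {tips : List ℕ}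
    (htl : ∀ t ∈ tips, t < n) {T B : ℕ} (hB : ∀ a b, W a b ≤ B) {x y : Pt}
    (h : (G0 W tips T).Adj x y) :
    (x.1 < n ∧ x.2.1 < n ∧ x.2.2 ≤ B) ∨ (∃ t, TV t x) := by
  have key : ∀ a b s, a < b → s ≤ W a b → 0 < W a b →
      ((pt W a b s).1 < n ∧ (pt W a b s).2.1 < n ∧ (pt W a b s).2.2 ≤ B) := by
    intro a b s hab hs h0
    have ha := hW.lt a b h0
    have hb := hW.lt b a (by rw [hW.symm b a]; exact h0)
    have := hB a b
    unfold pt
    split_ifs <;> refine ⟨?_, ?_, ?_⟩ <;> simp only <;> omega
  rcases h with (⟨a, b, r, hab, hr, h1, h2⟩ | ⟨u, hu, r, hr, h1, h2⟩) |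
    (⟨a, b, r, hab, hr, h1, h2⟩ | ⟨u, hu, r, hr, h1, h2⟩)
  · left; rw [h1]; exact key a b r hab (by omega) (by omega)
  · rcases Nat.eq_zero_or_pos r with h0 | h0
    · left
      rw [h1, h0]
      exact ⟨htl u hu, htl u hu, Nat.zero_le _⟩
    · right
      exact ⟨u, by rw [h1]; exact ⟨rfl, rfl, h0⟩⟩
  · left; rw [h2]; exact key a b (r + 1) hab (by omega) (by omega)
  · right
    exact ⟨u, by rw [h2]; exact ⟨rfl, rfl, by simp⟩⟩

/-- splitting off the core part between two tails -/
theorem exists_core_part (m : ℕ) : ∀ (Q A C D : List Pt) (x y : Pt) (t t' : ℕ),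
    C.length = m → Q = A ++ x :: (C ++ y :: D) → TV t x → TV t' y → t ≠ t' →
    ∃ (A C D : List Pt) (x y : Pt) (t t' : ℕ), Q = A ++ x :: (C ++ y :: D) ∧ TV t x ∧ TV t' y ∧
      t ≠ t' ∧ ∀ z ∈ C, ∀ u, ¬ TV u z := by
  induction m using Nat.strong_induction_on with
  | _ m ih =>
    intro Q A C D x y t t' hC hQ hx hy htt
    by_cases hno : ∀ z ∈ C, ∀ u, ¬ TV u z
    · exact ⟨A, C, D, x, y, t, t', hQ, hx, hy, htt, hno⟩
    · push Not at hno
      obtain ⟨z, hz, u, hu⟩ := hno
      obtain ⟨C1, C2, rfl⟩ := List.append_of_mem hz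
      have hlen : C1.length + (C2.length + 1) = m := by
        rw [← hC]; simp
      by_cases htu : t = u
      · subst htu
        refine ih C2.length (by omega) Q (A ++ x :: C1) C2 D z y t t' rfl ?_ hu hy htt
        rw [hQ]; simp
      · refine ih C1.length (by omega) Q A C1 (C2 ++ y :: D) x z t u rfl ?_ hx hu htu
        rw [hQ]; simp

/-- L1c relative to L1b -/
theorem upper_of (n : ℕ) (W : ℕ → ℕ → ℕ) (hW : Core n W) (tips : List ℕ)
    (htl : ∀ t ∈ tips, t < n) (L T B : ℕ)
    (hproj : ∀ (M : List Pt) (u v : ℕ), IsPathL (G0 W tips T) M →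
      M.head? = some (u, u, 0) → M.getLast? = some (v, v, 0) →
      (∀ x ∈ M, ¬ (x.1 = x.2.1 ∧ 1 ≤ x.2.2)) →
      ∃ l : List ℕ, CPath W l ∧ l.head? = some u ∧ l.getLast? = some v ∧
        M.length = wt W l + 1)
    (up : ∀ l, TipPath W tips l → wt W l ≤ L) (hB : ∀ a b, W a b ≤ B)
    (hT : n * n * (B + 1) ≤ T) (Q : List Pt) (hQ : IsPathL (G0 W tips T) Q) :
    Q.length ≤ L + 2 * T + 1 := by
  classical
  obtain ⟨-, hn, hc⟩ := hQ
  by_cases hlen : Q.length ≤ 1
  · omega
  push Not at hlen
  have hT' : ∀ x ∈ Q, ∀ t, TV t x → x.2.2 ≤ T ∧ t ∈ tips := by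
    rintro ⟨a, b, s⟩ hx t ⟨h1, h2, h3⟩
    simp only at h1 h2 h3
    subst h1
    subst h2
    obtain ⟨y, hy⟩ := exists_adj hc hlen hx
    obtain ⟨h4, h5, -⟩ := adj_tail h3 hy
    exact ⟨h5, h4⟩
  by_cases htwo : ∃ x ∈ Q, ∃ y ∈ Q, ∃ t t', TV t x ∧ TV t' y ∧ t ≠ t'
  · obtain ⟨x, hx, y, hy, t, t', htx, hty, htt⟩ := htwo
    -- order the two vertices
    have hsplit : ∃ (A C D : List Pt) (x y : Pt) (t t' : ℕ), Q = A ++ x :: (C ++ y :: D) ∧
        TV t x ∧ TV t' y ∧ t ≠ t' := by
      obtain ⟨A, R, hAR⟩ := List.append_of_mem hx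
      rw [hAR] at hy
      rcases List.mem_append.1 hy with hy | hy
      · obtain ⟨A1, A2, rfl⟩ := List.append_of_mem hy
        exact ⟨A1, A2, R, y, x, t', t, by rw [hAR]; simp, hty, htx, htt.symm⟩
      · rcases List.mem_cons.1 hy with rfl | hy
        · exfalso
          exact htt (by rw [← htx.1, hty.1])
        · obtain ⟨C, D, rfl⟩ := List.append_of_mem hy
          exact ⟨A, C, D, x, y, t, t', hAR, htx, hty, htt⟩
    obtain ⟨A, C, D, x, y, t, t', hQe, htx, hty, htt⟩ := hsplit
    obtain ⟨A, C, D, x, y, t, t', hQe, htx, hty, htt, hno⟩ :=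
      exists_core_part C.length Q A C D x y t t' rfl hQe htx hty htt
    -- the two tails
    have hc1 : List.IsChain (G0 W tips T).Adj (A ++ x :: (C ++ y :: D)) := by rwa [← hQe]
    have hn1 : (A ++ x :: (C ++ y :: D)).Nodup := by rwa [← hQe]
    have hA : ∀ z ∈ A, TV t z := by
      rcases one_side htx hc1 hn1 with h | h
      · exact h
      · exfalso
        exact htt ((h y (by simp)).1.symm.trans hty.1)
    have hassoc : A ++ x :: (C ++ y :: D) = (A ++ x :: C) ++ y :: D := by simp
    have hD : ∀ z ∈ D, TV t' z := by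
      rw [hassoc] at hc1 hn1
      rcases one_side hty hc1 hn1 with h | h
      · exfalso
        exact htt (htx.1.symm.trans (h x (by simp)).1)
      · exact h
    obtain ⟨x1, x2, s⟩ := x
    obtain ⟨y1, y2, s'⟩ := y
    obtain ⟨ex1, ex2, hs⟩ := htx
    obtain ⟨ey1, ey2, hs'⟩ := hty
    simp only at ex1 ex2 hs ey1 ey2 hs'
    subst ex1
    subst ex2
    subst ey1
    subst ey2
    -- the core part
    have hCne : C ≠ [] := by
      rintro rfl
      have := (List.isChain_cons_cons.1 (hc1.right_of_append)).1
      rcases (adj_tail hs this).2.2 with h | h <;>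
      · simp only [Prod.mk.injEq] at h
        exact htt h.1.symm
    obtain ⟨c, C', hcC⟩ : ∃ c C', C = c :: C' := List.exists_cons_of_ne_nil hCne
    have hhead : C.head? = some (x2, x2, 0) := by
      have hadj : (G0 W tips T).Adj (x2, x2, s) c := by
        have := hc1.right_of_append
        rw [hcC] at this
        exact (List.isChain_cons_cons.1 this).1
      have hcn := hno c (by rw [hcC]; simp)
      rw [hcC]
      simp only [List.head?_cons, Option.some.injEq]
      rcases (adj_tail hs hadj).2.2 with h | h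
      · exact absurd ⟨by rw [h], by rw [h], by rw [h]; simp⟩ (hcn x2)
      · rw [h]
        have : s - 1 = 0 := by
          by_contra h0
          exact hcn x2 ⟨by rw [h], by rw [h], by rw [h]; simp only; omega⟩
        rw [this]
    obtain ⟨C'', d, hdC⟩ : ∃ C'' d, C = C'' ++ [d] := by
      rcases List.eq_nil_or_concat' C with h | ⟨a, b, h⟩
      · exact absurd h hCne
      · exact ⟨a, b, h⟩
    have hlast : C.getLast? = some (y2, y2, 0) := by
      have hadj : (G0 W tips T).Adj (y2, y2, s') d := by
        have h1 := hc1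
        rw [hdC] at h1
        have e : A ++ (x2, x2, s) :: (C'' ++ [d] ++ (y2, y2, s') :: D) =
          (A ++ (x2, x2, s) :: C'') ++ (d :: (y2, y2, s') :: D) := by simp
        rw [e] at h1
        exact (List.isChain_cons_cons.1 h1.right_of_append).1.symm
      have hcn := hno d (by rw [hdC]; simp)
      rw [hdC]
      simp only [List.getLast?_append, List.getLast?_singleton, Option.some_or,
        Option.some.injEq]
      rcases (adj_tail hs' hadj).2.2 with h | h
      · exact absurd ⟨by rw [h], by rw [h], by rw [h]; simp⟩ (hcn y2)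
      · rw [h]
        have : s' - 1 = 0 := by
          by_contra h0
          exact hcn y2 ⟨by rw [h], by rw [h], by rw [h]; simp only; omega⟩
        rw [this]
    have hCpath : IsPathL (G0 W tips T) C := by
      refine ⟨hCne, ?_, ?_⟩
      · have := (List.nodup_append.1 hn1).2.1
        have := (List.nodup_cons.1 this).2
        exact (List.nodup_append.1 this).1
      · have h2 := hc1.right_of_append
        have h3 : List.IsChain (G0 W tips T).Adj (C ++ (y2, y2, s') :: D) := by
          have := List.IsChain.tail h2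
          simpa using this
        exact h3.left_of_append
    obtain ⟨l, hl1, hl2, hl3, hl4⟩ := hproj C x2 y2 hCpath hhead hlast
      (fun z hz h => hno z hz z.1 ⟨rfl, h.1.symm, h.2⟩)
    have hxQ : ((x2, x2, s) : Pt) ∈ Q := by rw [hQe]; simp
    have hyQ : ((y2, y2, s') : Pt) ∈ Q := by rw [hQe]; simp
    have hL := up l ⟨hl1, x2, (hT' _ hxQ x2 ⟨rfl, rfl, hs⟩).2, y2,
      (hT' _ hyQ y2 ⟨rfl, rfl, hs'⟩).2, htt, hl2, hl3⟩
    have hlenA : (A ++ [(x2, x2, s)] : List Pt).length ≤ T := by
      refine tail_length (t := x2) ?_ ?_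
      · have e : A ++ (x2, x2, s) :: (C ++ (y2, y2, s') :: D) =
          (A ++ [(x2, x2, s)]) ++ (C ++ (y2, y2, s') :: D) := by simp
        rw [e] at hn1
        exact (List.nodup_append.1 hn1).1
      · intro z hz
        have hzQ : z ∈ Q := by
          rw [hQe]
          rcases List.mem_append.1 hz with h | h
          · exact List.mem_append_left _ h
          · simp only [List.mem_singleton] at h
            rw [h]; simp
        have hzt : TV x2 z := by
          rcases List.mem_append.1 hz with h | h
          · exact hA z h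
          · simp only [List.mem_singleton] at h
            rw [h]; exact ⟨rfl, rfl, hs⟩
        exact ⟨hzt, (hT' z hzQ x2 hzt).1⟩
    have hlenD : ((y2, y2, s') :: D : List Pt).length ≤ T := by
      refine tail_length (t := y2) ?_ ?_
      · have := (List.nodup_append.1 hn1).2.1
        have := (List.nodup_cons.1 this).2
        exact (List.nodup_append.1 this).2.1
      · intro z hz
        have hzQ : z ∈ Q := by
          rw [hQe]
          rcases List.mem_cons.1 hz with h | h
          · rw [h]; simp
          · simp [h]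
        have hzt : TV y2 z := by
          rcases List.mem_cons.1 hz with h | h
          · rw [h]; exact ⟨rfl, rfl, hs'⟩
          · exact hD z h
        exact ⟨hzt, (hT' z hzQ y2 hzt).1⟩
    rw [hQe]
    simp only [List.length_append, List.length_cons, List.length_nil] at hlenA hlenD ⊢
    omega
  · -- at most one tail
    push Not at htwo
    have hbound : Q.length ≤ n * n * (B + 1) + T := by
      by_cases hex : ∃ x ∈ Q, ∃ t, TV t x
      · obtain ⟨x0, hx0, t0, ht0⟩ := hex
        rw [← List.toFinset_card_of_nodup hn]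
        calc Q.toFinset.card ≤ ((Finset.range n ×ˢ (Finset.range n ×ˢ Finset.range (B + 1)) :
              Finset Pt) ∪ ((Finset.Icc 1 T).image fun s => ((t0, t0, s) : Pt))).card := by
              apply Finset.card_le_card
              intro x hx
              rw [List.mem_toFinset] at hx
              rw [Finset.mem_union]
              obtain ⟨y, hy⟩ := exists_adj hc hlen hx
              rcases mem_bounds hW htl hB hy with ⟨h1, h2, h3⟩ | ⟨t, ht⟩
              · left
                simp only [Finset.mem_product, Finset.mem_range]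
                exact ⟨h1, h2, by omega⟩
              · right
                have : t = t0 := htwo x hx x0 hx0 t t0 ht ht0
                subst this
                refine Finset.mem_image.2 ⟨x.2.2, Finset.mem_Icc.2 ⟨ht.2.2, (hT' x hx t ht).1⟩, ?_⟩
                obtain ⟨a, b, s⟩ := x
                obtain ⟨h1, h2, h3⟩ := ht
                simp only at h1 h2
                rw [h1, h2]
          _ ≤ n * n * (B + 1) + T := by
              refine (Finset.card_union_le _ _).trans ?_
              have h1 : (Finset.range n ×ˢ (Finset.range n ×ˢ Finset.range (B + 1)) :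
                  Finset Pt).card = n * n * (B + 1) := by
                simp only [Finset.card_product, Finset.card_range]
                ring
              have h2 : ((Finset.Icc 1 T).image fun s => ((t0, t0, s) : Pt)).card ≤ T :=
                Finset.card_image_le.trans (by simp)
              omega
      · push Not at hex
        rw [← List.toFinset_card_of_nodup hn]
        calc Q.toFinset.card ≤ (Finset.range n ×ˢ (Finset.range n ×ˢ Finset.range (B + 1)) :
              Finset Pt).card := by
              apply Finset.card_le_card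
              intro x hx
              rw [List.mem_toFinset] at hx
              obtain ⟨y, hy⟩ := exists_adj hc hlen hx
              rcases mem_bounds hW htl hB hy with ⟨h1, h2, h3⟩ | ⟨t, ht⟩
              · simp only [Finset.mem_product, Finset.mem_range]
                exact ⟨h1, h2, by omega⟩
              · exact absurd ht (hex x hx t)
          _ = n * n * (B + 1) := by
                simp only [Finset.card_product, Finset.card_range]
                ring
          _ ≤ n * n * (B + 1) + T := Nat.le_add_right _ _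
    omega

/-- L1c: every path of the subdivided graph has at most `L + 2 T + 1` vertices. -/
theorem upper (n : ℕ) (W : ℕ → ℕ → ℕ) (hW : Core n W) (tips : List ℕ)
    (htl : ∀ t ∈ tips, t < n) (L T B : ℕ)
    (up : ∀ l, TipPath W tips l → wt W l ≤ L) (hB : ∀ a b, W a b ≤ B)
    (hT : n * n * (B + 1) ≤ T) (Q : List Pt) (hQ : IsPathL (G0 W tips T) Q) :
    Q.length ≤ L + 2 * T + 1 :=
  upper_of n W hW tips htl L T B
    (fun M u v h1 h2 h3 h4 =>
      Pool.Agent.Helper79.LPath.core_projection n W hW tips T M u v h1 h2 h3 h4) up hB hT Q hQ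

end Pool.Agent.Helper51.LPath
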